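import Mathlib
import Pool.Agent.Helper481.SV

set_option autoImplicit false

open Module
open scoped InnerProductSpace
open Pool.Agent.Helper481

namespace Pool.Agent.Q265.KN

variable {𝕜 E : Type*} [RCLike 𝕜] [NormedAddCommGroup E] [InnerProductSpace 𝕜 E]
  [FiniteDimensional 𝕜 E] {n : ℕ} (hn : finrank 𝕜 E = n)

/-- on the vectors orthogonal to the first `k` right singular vectors -/
lemma norm_le_of_orth (T : E →ₗ[𝕜] E) (k : ℕ) (y : E)
    (h : ∀ i : Fin n, i.1 < k → ⟪rsb hn T i, y⟫_𝕜 = 0) : ‖T y‖ ≤ T.singularValues k * ‖y‖ := by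
  have h1 : ‖T y‖ ^ 2 ≤ (T.singularValues k * ‖y‖) ^ 2 := by
    rw [norm_sq_apply hn T y, mul_pow, ← OrthonormalBasis.sum_sq_norm_inner_right (rsb hn T) y,
      Finset.mul_sum]
    refine Finset.sum_le_sum fun i _ => ?_
    by_cases hi : i.1 < k
    · rw [h i hi]; simp
    · have h2 : T.singularValues i ≤ T.singularValues k := T.singularValues_antitone (not_lt.1 hi)
      have h3 := T.singularValues_nonneg i
      gcongr
  exact (sq_le_sq₀ (norm_nonneg _) (mul_nonneg (T.singularValues_nonneg _) (norm_nonneg _))).1 h1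

/-- on the span of the first `k + 1` right singular vectors -/
lemma le_norm_of_span (T : E →ₗ[𝕜] E) (k : ℕ) (y : E)
    (h : ∀ i : Fin n, k < i.1 → ⟪rsb hn T i, y⟫_𝕜 = 0) : T.singularValues k * ‖y‖ ≤ ‖T y‖ := by
  have h1 : (T.singularValues k * ‖y‖) ^ 2 ≤ ‖T y‖ ^ 2 := by
    rw [norm_sq_apply hn T y, mul_pow, ← OrthonormalBasis.sum_sq_norm_inner_right (rsb hn T) y,
      Finset.mul_sum]
    refine Finset.sum_le_sum fun i _ => ?_
    by_cases hi : k < i.1
    · rw [h i hi]; simp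
    · have h2 : T.singularValues k ≤ T.singularValues i := T.singularValues_antitone (not_lt.1 hi)
      have h3 := T.singularValues_nonneg k
      gcongr
  exact (sq_le_sq₀ (mul_nonneg (T.singularValues_nonneg _) (norm_nonneg _)) (norm_nonneg _)).1 h1

/-- a common nonzero solution of fewer than `n` homogeneous linear equations -/
lemma exists_common {ι : Type*} [Fintype ι] (hι : Fintype.card ι < n) (φ : ι → E →ₗ[𝕜] 𝕜)
    (hn : finrank 𝕜 E = n) : ∃ y : E, y ≠ 0 ∧ ∀ i, φ i y = 0 := by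
  have h1 : LinearMap.ker (LinearMap.pi φ) ≠ ⊥ := by
    apply LinearMap.ker_ne_bot_of_finrank_lt
    rw [hn]; simpa using hι
  obtain ⟨y, hy, hy0⟩ := (Submodule.ne_bot_iff _).1 h1
  refine ⟨y, hy0, fun i => ?_⟩
  have := LinearMap.mem_ker.1 hy
  exact congrFun this i

/-- `s_{i+j}(A+B) ≤ s_i(A) + s_j(B)` in the following form -/
lemma sv_le_add_of_norm_le (T A B : E →ₗ[𝕜] E) (a b : ℝ) (ha : 0 ≤ a) (hb : 0 ≤ b)
    (h : ∀ x, ‖T x‖ ≤ a * ‖A x‖ + b * ‖B x‖) (i j : ℕ) :
    T.singularValues (i + j) ≤ a * A.singularValues i + b * B.singularValues j := by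
  have hn : finrank 𝕜 E = finrank 𝕜 E := rfl
  set n := finrank 𝕜 E with hnn
  have hA := A.singularValues_nonneg i
  have hB := B.singularValues_nonneg j
  by_cases hij : n ≤ i + j
  · rw [LinearMap.singularValues_of_finrank_le T hij]
    positivity
  rw [not_le] at hij
  -- the equations
  let φ : (Fin i ⊕ Fin j) ⊕ Fin (n - (i + j + 1)) → E →ₗ[𝕜] 𝕜 := fun c =>
    match c with
    | Sum.inl (Sum.inl c) => (innerSL 𝕜 (rsb hn A ⟨c, by omega⟩)).toLinearMap
    | Sum.inl (Sum.inr c) => (innerSL 𝕜 (rsb hn B ⟨c, by omega⟩)).toLinearMap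
    | Sum.inr c => (innerSL 𝕜 (rsb hn T ⟨i + j + 1 + c, by omega⟩)).toLinearMap
  obtain ⟨y, hy0, hy⟩ := exists_common (n := n) (by simp; omega) φ hn
  have h1 : ‖A y‖ ≤ A.singularValues i * ‖y‖ := by
    refine norm_le_of_orth hn A i y fun c hc => ?_
    exact hy (Sum.inl (Sum.inl ⟨c, hc⟩))
  have h2 : ‖B y‖ ≤ B.singularValues j * ‖y‖ := by
    refine norm_le_of_orth hn B j y fun c hc => ?_
    exact hy (Sum.inl (Sum.inr ⟨c, hc⟩))
  have h3 : T.singularValues (i + j) * ‖y‖ ≤ ‖T y‖ := by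
    refine le_norm_of_span hn T (i + j) y fun c hc => ?_
    have := hy (Sum.inr ⟨c - (i + j + 1), by omega⟩)
    have e : (⟨i + j + 1 + (c - (i + j + 1)), by omega⟩ : Fin n) = c := by
      apply Fin.ext; simp; omega
    simp only [φ] at this
    rw [e] at this
    exact this
  have h4 := h y
  have hy' : 0 < ‖y‖ := norm_pos_iff.2 hy0
  have h5 : T.singularValues (i + j) * ‖y‖ ≤ (a * A.singularValues i + b * B.singularValues j) * ‖y‖ := by
    calc T.singularValues (i + j) * ‖y‖ ≤ a * ‖A y‖ + b * ‖B y‖ := h3.trans h4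
      _ ≤ a * (A.singularValues i * ‖y‖) + b * (B.singularValues j * ‖y‖) := by gcongr
      _ = _ := by ring
  exact le_of_mul_le_mul_right h5 hy'

lemma sv_add (A B : E →ₗ[𝕜] E) (i j : ℕ) :
    (A - B).singularValues (i + j) ≤ A.singularValues i + B.singularValues j := by
  have := sv_le_add_of_norm_le (A - B) A B 1 1 zero_le_one zero_le_one (fun x => by
    rw [one_mul, one_mul, LinearMap.sub_apply]; exact norm_sub_le _ _) i j
  simpa using this

lemma sv_le_of_norm_le (T A : E →ₗ[𝕜] E) (a : ℝ) (ha : 0 ≤ a)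
    (h : ∀ x, ‖T x‖ ≤ a * ‖A x‖) (i : ℕ) :
    T.singularValues i ≤ a * A.singularValues i := by
  have := sv_le_add_of_norm_le T A A a 0 ha le_rfl (fun x => by simpa using h x) i 0
  simpa using this

lemma sv_smul (c : ℝ) (hc : 0 ≤ c) (T : E →ₗ[𝕜] E) (i : ℕ) :
    ((c : 𝕜) • T).singularValues i ≤ c * T.singularValues i := by
  refine sv_le_of_norm_le _ _ c hc (fun x => ?_) i
  rw [LinearMap.smul_apply, norm_smul, RCLike.norm_ofReal, abs_of_nonneg hc]

lemma norm_le_sv_zero (T : E →ₗ[𝕜] E) (y : E) : ‖T y‖ ≤ T.singularValues 0 * ‖y‖ :=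
  norm_le_of_orth rfl T 0 y fun i hi => absurd hi (Nat.not_lt_zero _)

lemma sv_zero_le (T : E →ₗ[𝕜] E) (c : ℝ) (hc : 0 ≤ c) (h : ∀ x, ‖T x‖ ≤ c * ‖x‖) (i : ℕ) :
    T.singularValues i ≤ c := by
  by_cases hi : finrank 𝕜 E ≤ i
  · rw [LinearMap.singularValues_of_finrank_le T hi]; exact hc
  · rw [not_le] at hi
    have h1 := norm_apply_rsb (n := finrank 𝕜 E) rfl T ⟨i, hi⟩
    have h2 := h (rsb (n := finrank 𝕜 E) rfl T ⟨i, hi⟩)
    rw [(rsb (n := finrank 𝕜 E) rfl T).norm_eq_one, mul_one, h1] at h2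
    exact h2

end Pool.Agent.Q265.KN
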