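import Mathlib
import Pool.Agent.Q265.KN.SVal

set_option autoImplicit false

open Module
open scoped InnerProductSpace
open Pool.Agent.Helper481

namespace Pool.Agent.Q265.KN

variable {𝕜 E : Type*} [RCLike 𝕜] [NormedAddCommGroup E] [InnerProductSpace 𝕜 E]
  [FiniteDimensional 𝕜 E] {n : ℕ}

/-- a combination of orthonormal vectors -/
noncomputable def comb {r : ℕ} (v : Fin r → E) : EuclideanSpace 𝕜 (Fin r) →ₗ[𝕜] E where
  toFun c := ∑ i, c i • v i
  map_add' c d := by simp [add_smul, Finset.sum_add_distrib]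
  map_smul' a c := by simp [Finset.smul_sum, smul_smul]

lemma norm_comb {r : ℕ} (v : Fin r → E) (hv : Orthonormal 𝕜 v) (c : EuclideanSpace 𝕜 (Fin r)) :
    ‖comb v c‖ ≤ ‖c‖ := by
  have h1 : ‖comb v c‖ ^ 2 = ‖c‖ ^ 2 := by
    have h2 : ⟪comb v c, comb v c⟫_𝕜 = ((‖c‖ ^ 2 : ℝ) : 𝕜) := by
      change ⟪∑ i, c i • v i, ∑ i, c i • v i⟫_𝕜 = _
      rw [hv.inner_sum, EuclideanSpace.norm_sq_eq]
      push_cast
      refine Finset.sum_congr rfl fun i _ => ?_
      exact RCLike.conj_mul _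
    have h3 := inner_self_eq_norm_sq_to_K (𝕜 := 𝕜) (comb v c)
    rw [h2] at h3
    exact_mod_cast h3.symm
  exact ((sq_eq_sq₀ (norm_nonneg _) (norm_nonneg _)).1 h1).le

/-- the coefficients -/
noncomputable def coef {r : ℕ} (v : Fin r → E) : E →ₗ[𝕜] EuclideanSpace 𝕜 (Fin r) where
  toFun x := WithLp.toLp 2 (fun i => ⟪v i, x⟫_𝕜)
  map_add' x y := by ext i; simp [inner_add_right]
  map_smul' a x := by ext i; simp [inner_smul_right]

lemma norm_coef {r : ℕ} (v : Fin r → E) (hv : Orthonormal 𝕜 v) (x : E) :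
    ‖coef (𝕜 := 𝕜) v x‖ ≤ ‖x‖ := by
  have h1 : ‖coef (𝕜 := 𝕜) v x‖ ^ 2 ≤ ‖x‖ ^ 2 := by
    rw [EuclideanSpace.norm_sq_eq]
    exact hv.sum_inner_products_le x (s := Finset.univ)
  exact (sq_le_sq₀ (norm_nonneg _) (norm_nonneg _)).1 h1

/-- one block -/
lemma exists_block (hn : finrank 𝕜 E = n) (T : E →ₗ[𝕜] E) (a r : ℕ) (har : a + r ≤ n) (c : ℝ)
    (hc : 0 < c) (hs : T.singularValues a ≤ c) :
    ∃ (U : EuclideanSpace 𝕜 (Fin r) →L[𝕜] E) (W : E →L[𝕜] EuclideanSpace 𝕜 (Fin r)),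
      ‖U‖ ≤ 1 ∧ ‖W‖ ≤ 1 ∧ ∀ x, (c : 𝕜) • U (W x) =
        T (∑ i : Fin r, ⟪rsb hn T ⟨a + i, by omega⟩, x⟫_𝕜 • rsb hn T ⟨a + i, by omega⟩) := by
  classical
  set v : Fin r → E := fun i => rsb hn T ⟨a + i, by omega⟩ with hv
  have hvo : Orthonormal 𝕜 v := by
    have : v = (rsb hn T) ∘ (fun i : Fin r => (⟨a + i, by omega⟩ : Fin n)) := rfl
    rw [this]
    refine (rsb hn T).orthonormal.comp _ fun i j hij => ?_
    have := congrArg Fin.val hij
    simp at this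
    exact Fin.ext this
  refine ⟨LinearMap.toContinuousLinearMap ((c⁻¹ : 𝕜) • (T ∘ₗ comb v)),
    LinearMap.toContinuousLinearMap (coef v), ?_, ?_, ?_⟩
  · refine ContinuousLinearMap.opNorm_le_bound _ zero_le_one fun y => ?_
    have h1 : ‖T (comb v y)‖ ≤ c * ‖y‖ := by
      have h2 : ‖T (comb v y)‖ ≤ T.singularValues a * ‖comb v y‖ := by
        refine norm_le_of_orth hn T a _ fun i hi => ?_
        change ⟪rsb hn T i, ∑ j, y j • v j⟫_𝕜 = 0
        rw [inner_sum]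
        refine Finset.sum_eq_zero fun j _ => ?_
        rw [inner_smul_right, hv, orthonormal_iff_ite.1 (rsb hn T).orthonormal, if_neg, mul_zero]
        intro h
        rw [h] at hi
        simp at hi
      refine h2.trans ?_
      have := norm_comb v hvo y
      have := T.singularValues_nonneg a
      gcongr
    simp only [LinearMap.coe_toContinuousLinearMap', LinearMap.smul_apply, LinearMap.comp_apply,
      norm_smul, norm_inv, RCLike.norm_ofReal, abs_of_pos hc, one_mul]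
    rw [inv_mul_le_iff₀ hc]
    exact h1
  · refine ContinuousLinearMap.opNorm_le_bound _ zero_le_one fun y => ?_
    rw [one_mul]
    exact norm_coef v hvo y
  · intro x
    simp only [LinearMap.coe_toContinuousLinearMap', LinearMap.smul_apply, LinearMap.comp_apply]
    rw [smul_smul, mul_inv_cancel₀ (by exact_mod_cast hc.ne'), one_smul]
    rfl

/-- the dyadic decomposition -/
lemma exists_decomp (hn : finrank 𝕜 E = n) (T : E →ₗ[𝕜] E) (k : ℕ) (hk : 2 ^ k ≤ n) (θ : ℝ)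
    (hθ : 0 < θ) (hs : ∀ j ≤ k, T.singularValues (2 ^ j - 1) ≤ θ ^ j) :
    ∃ (U : ∀ j : Fin k, EuclideanSpace 𝕜 (Fin (2 ^ (j:ℕ))) →L[𝕜] E)
      (W : ∀ j : Fin k, E →L[𝕜] EuclideanSpace 𝕜 (Fin (2 ^ (j:ℕ)))),
      (∀ j, ‖U j‖ ≤ 1) ∧ (∀ j, ‖W j‖ ≤ 1) ∧
      ∀ x, ‖T x - ∑ j : Fin k, ((θ ^ (j:ℕ) : ℝ) : 𝕜) • U j (W j x)‖ ≤ θ ^ k * ‖x‖ := by
  classical
  have hlt : ∀ j : Fin k, (2 ^ (j:ℕ) - 1) + 2 ^ (j:ℕ) ≤ n := by
    intro j
    have h1 : 2 ^ ((j:ℕ) + 1) ≤ 2 ^ k := Nat.pow_le_pow_right (by norm_num) j.2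
    rw [pow_succ] at h1
    omega
  choose U W hU hW hUW using fun j : Fin k => exists_block hn T (2 ^ (j:ℕ) - 1) (2 ^ (j:ℕ)) (hlt j)
    (θ ^ (j:ℕ)) (by positivity) (hs j j.2.le)
  refine ⟨U, W, hU, hW, fun x => ?_⟩
  -- partial sums
  let w : ℕ → E := fun i => if h : i < n then ⟪rsb hn T ⟨i, h⟩, x⟫_𝕜 • rsb hn T ⟨i, h⟩ else 0
  let Q : ℕ → E := fun m => ∑ i ∈ Finset.range m, w i
  have hblock : ∀ j : Fin k, ((θ ^ (j:ℕ) : ℝ) : 𝕜) • U j (W j x) =
      T (Q (2 ^ ((j:ℕ) + 1) - 1)) - T (Q (2 ^ (j:ℕ) - 1)) := by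
    intro j
    rw [hUW j x, ← map_sub]
    congr 1
    have h1 : 2 ^ ((j:ℕ) + 1) - 1 = (2 ^ (j:ℕ) - 1) + 2 ^ (j:ℕ) := by
      have : 1 ≤ 2 ^ (j:ℕ) := Nat.one_le_two_pow
      rw [pow_succ]; omega
    simp only [Q]
    rw [h1, Finset.sum_range_add, add_sub_cancel_left, ← Fin.sum_univ_eq_sum_range
      (fun i => w (2 ^ (j:ℕ) - 1 + i))]
    refine Finset.sum_congr rfl fun i _ => ?_
    simp only [w]
    rw [dif_pos]
  have hsum : ∑ j : Fin k, ((θ ^ (j:ℕ) : ℝ) : 𝕜) • U j (W j x) = T (Q (2 ^ k - 1)) := by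
    rw [Finset.sum_congr rfl fun j _ => hblock j]
    rw [Fin.sum_univ_eq_sum_range (fun j => T (Q (2 ^ (j + 1) - 1)) - T (Q (2 ^ j - 1)))]
    rw [Finset.sum_range_sub (fun j => T (Q (2 ^ j - 1)))]
    simp [Q]
  rw [hsum, ← map_sub]
  set m := 2 ^ k - 1 with hm
  have hmn : m ≤ n := by omega
  have hin : ∀ i : Fin n, ⟪rsb hn T i, x - Q m⟫_𝕜 = if i.1 < m then 0 else ⟪rsb hn T i, x⟫_𝕜 := by
    intro i
    rw [inner_sub_right]
    have h1 : ⟪rsb hn T i, Q m⟫_𝕜 = if i.1 < m then ⟪rsb hn T i, x⟫_𝕜 else 0 := by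
      simp only [Q]
      rw [inner_sum]
      have h2 : ∀ j ∈ Finset.range m, ⟪rsb hn T i, w j⟫_𝕜 = if i.1 = j then ⟪rsb hn T i, x⟫_𝕜 else 0 := by
        intro j hj
        have hjn : j < n := lt_of_lt_of_le (Finset.mem_range.1 hj) hmn
        simp only [w]
        rw [dif_pos hjn, inner_smul_right, orthonormal_iff_ite.1 (rsb hn T).orthonormal]
        by_cases h : i = ⟨j, hjn⟩
        · rw [if_pos h, mul_one, if_pos (by rw [h]), h]
        · rw [if_neg h, mul_zero, if_neg]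
          intro h'
          exact h (Fin.ext h')
      rw [Finset.sum_congr rfl h2, Finset.sum_ite_eq]
      simp
    rw [h1]
    split_ifs <;> simp
  have h1 : ‖T (x - Q m)‖ ^ 2 ≤ (θ ^ k * ‖x‖) ^ 2 := by
    rw [norm_sq_apply hn T, mul_pow, ← OrthonormalBasis.sum_sq_norm_inner_right (rsb hn T) x,
      Finset.mul_sum]
    refine Finset.sum_le_sum fun i _ => ?_
    rw [hin i]
    by_cases hi : i.1 < m
    · rw [if_pos hi]; simp; positivity
    · rw [if_neg hi]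
      have h2 : T.singularValues i ≤ T.singularValues m := T.singularValues_antitone (not_lt.1 hi)
      have h3 := T.singularValues_nonneg i
      have h4 := hs k le_rfl
      have h5 : T.singularValues i ≤ θ ^ k := h2.trans h4
      gcongr
  exact (sq_le_sq₀ (norm_nonneg _) (by positivity)).1 h1

end Pool.Agent.Q265.KN
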