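import Mathlib
import Pool.Agent.H2R2.Cov2

set_option autoImplicit false

open MeasureTheory Module Set
open scoped Pointwise ENNReal

namespace Pool.Agent.Q265.KN

/-- a code of the unit ball of a finite-dimensional space with cells of small diameter -/
lemma exists_code {X : Type*} [NormedAddCommGroup X] [NormedSpace ℝ X] [FiniteDimensional ℝ X]
    (t : ℕ) (D : ℕ) (hD : finrank ℝ X ≤ D) :
    ∃ (M : ℕ) (f : X → Fin M), M ≤ 2 ^ ((t + 1) * D) ∧
      ∀ x y : X, ‖x‖ ≤ 1 → ‖y‖ ≤ 1 → f x = f y → ‖x - y‖ ≤ 4 * (1 / 2) ^ t := by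
  classical
  obtain ⟨S, -, h2, h3⟩ := Pool.Agent.H2R2.Cov.exists_net (Metric.closedBall (0:X) 1)
    (convex_closedBall _ _) (isCompact_closedBall _ _)
    (by
      refine ⟨0, ?_⟩
      rw [mem_interior_iff_mem_nhds]
      exact Metric.closedBall_mem_nhds _ one_pos) ((1 / 2) ^ t) (by positivity)
  have hne : S.Nonempty := by
    obtain ⟨x, hx, -⟩ := h2 0 (by simp)
    exact ⟨x, hx⟩
  obtain ⟨s0, hs0⟩ := hne
  have hch : ∀ y : X, ∃ x : S, ‖y‖ ≤ 1 → ‖y - x‖ ≤ 2 * (1 / 2) ^ t := by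
    intro y
    by_cases hy : ‖y‖ ≤ 1
    · obtain ⟨x, hx, k, hk, k', hk', h⟩ := h2 y (by simpa using hy)
      refine ⟨⟨x, hx⟩, fun _ => ?_⟩
      have hk1 : ‖k‖ ≤ 1 := by simpa using hk
      have hk2 : ‖k'‖ ≤ 1 := by simpa using hk'
      have : y - x = (((1:ℝ) / 2) ^ t) • (k - k') := by rw [h]; abel
      rw [show y - ((⟨x, hx⟩ : S) : X) = (((1:ℝ) / 2) ^ t) • (k - k') from this, norm_smul,
        Real.norm_of_nonneg (by positivity)]
      have h4 : ‖k - k'‖ ≤ 2 := (norm_sub_le _ _).trans (by linarith)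
      have h5 : (0:ℝ) ≤ (1 / 2) ^ t := by positivity
      nlinarith
    · exact ⟨⟨s0, hs0⟩, fun h => absurd h hy⟩
  choose g hg using hch
  refine ⟨S.card, fun x => S.equivFin (g x), ?_, ?_⟩
  · have h4 : (S.card : ℝ) ≤ ((2 ^ ((t + 1) * D) : ℕ) : ℝ) := by
      refine h3.trans ?_
      have h5 : (1 + 1 / ((1:ℝ) / 2) ^ t) ≤ 2 ^ (t + 1) := by
        have h6 : 1 / ((1:ℝ) / 2) ^ t = 2 ^ t := by
          rw [one_div, ← inv_pow]; norm_num
        rw [h6, pow_succ]
        have : (1:ℝ) ≤ 2 ^ t := one_le_pow₀ (by norm_num)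
        linarith
      push_cast
      rw [pow_mul]
      refine (pow_le_pow_left₀ (by positivity) h5 _).trans ?_
      exact pow_le_pow_right₀ (one_le_pow₀ (by norm_num)) hD
    exact_mod_cast h4
  · intro x y hx hy hxy
    have h4 : g x = g y := S.equivFin.injective hxy
    have h5 := hg x hx
    have h6 := hg y hy
    rw [h4] at h5
    calc ‖x - y‖ = ‖(x - g y) - (y - g y)‖ := by congr 1; abel
      _ ≤ ‖x - g y‖ + ‖y - g y‖ := norm_sub_le _ _
      _ ≤ _ := by linarith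

lemma volume_bound {X : Type*} [NormedAddCommGroup X] [NormedSpace ℝ X] [FiniteDimensional ℝ X]
    (L : Submodule ℝ X) (B : Set X) (hB : Bornology.IsBounded B) (h0 : B ∈ nhds (0:X))
    {ι : Type*} [Fintype ι] (f : X → ι) (t : ℝ) (ht : 0 < t)
    (H : ∀ x ∈ B, ∀ y ∈ B, f x = f y → ∃ l ∈ L, ∃ z ∈ B, x - y = l + t • z) :
    1 ≤ (Fintype.card ι : ℝ) * t ^ (finrank ℝ (X ⧸ L)) := by
  classical
  haveI : CompleteSpace X := FiniteDimensional.complete ℝ X
  set K := finrank ℝ (X ⧸ L) with hK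
  have e : (X ⧸ L) ≃ₗ[ℝ] (Fin K → ℝ) := LinearEquiv.ofFinrankEq _ _ (by simp [hK])
  set π : X →ₗ[ℝ] (Fin K → ℝ) := e.toLinearMap ∘ₗ L.mkQ with hπ
  set π' : X →L[ℝ] (Fin K → ℝ) := LinearMap.toContinuousLinearMap π with hπ'
  have hsurj : Function.Surjective π' := by
    intro y
    obtain ⟨q, hq⟩ := e.surjective y
    obtain ⟨x, hx⟩ := L.mkQ_surjective q
    exact ⟨x, by simp [hπ', hπ, hx, hq]⟩
  have hker : ∀ l ∈ L, π' l = 0 := by
    intro l hl
    have : L.mkQ l = 0 := by simpa using hl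
    simp only [hπ', hπ, LinearMap.coe_toContinuousLinearMap', LinearMap.comp_apply, this, map_zero]
  set S := π' '' B with hS
  have hS0 : S ∈ nhds (0 : Fin K → ℝ) := by
    have := (π'.isOpenMap hsurj).image_mem_nhds h0
    rwa [map_zero] at this
  have hSb : Bornology.IsBounded S := π'.lipschitz.isBounded_image hB
  have hpos : 0 < volume S := Measure.measure_pos_of_mem_nhds _ hS0
  have hfin : volume S < ∞ := hSb.measure_lt_top
  have hcell : ∀ i : ι, volume (π' '' (B ∩ f ⁻¹' {i})) ≤ ENNReal.ofReal (t ^ K) * volume S := by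
    intro i
    by_cases hne : (B ∩ f ⁻¹' {i}).Nonempty
    · obtain ⟨x0, hx0, hx0'⟩ := hne
      have hsub : π' '' (B ∩ f ⁻¹' {i}) ⊆ (π' x0) +ᵥ (t • S) := by
        rintro _ ⟨x, ⟨hx, hx'⟩, rfl⟩
        obtain ⟨l, hl, z, hz, h⟩ := H x hx x0 hx0 (by
          rw [Set.mem_preimage, Set.mem_singleton_iff] at hx' hx0'
          rw [hx', hx0'])
        refine ⟨t • π' z, ⟨π' z, ⟨z, hz, rfl⟩, rfl⟩, ?_⟩
        have h1 : π' x - π' x0 = t • π' z := by
          rw [← map_sub, h, map_add, hker l hl, zero_add, map_smul]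
        change π' x0 + t • π' z = π' x
        rw [← h1]; abel
      refine (measure_mono hsub).trans ?_
      rw [measure_vadd, Measure.addHaar_smul]
      simp only [Module.finrank_fintype_fun_eq_card, Fintype.card_fin]
      rw [abs_of_pos (by positivity)]
    · rw [Set.not_nonempty_iff_eq_empty] at hne
      rw [hne]; simp
  have hcov : volume S ≤ (Fintype.card ι : ℝ≥0∞) * (ENNReal.ofReal (t ^ K) * volume S) := by
    have h1 : S ⊆ ⋃ i : ι, π' '' (B ∩ f ⁻¹' {i}) := by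
      rintro _ ⟨x, hx, rfl⟩
      exact Set.mem_iUnion.2 ⟨f x, x, ⟨hx, rfl⟩, rfl⟩
    refine (measure_mono h1).trans ((measure_iUnion_fintype_le _ _).trans ?_)
    refine (Finset.sum_le_sum fun i _ => hcell i).trans ?_
    rw [Finset.sum_const, nsmul_eq_mul, Finset.card_univ]
  have h1 : (1:ℝ≥0∞) ≤ (Fintype.card ι : ℝ≥0∞) * ENNReal.ofReal (t ^ K) := by
    rw [← mul_assoc] at hcov
    by_contra hlt
    rw [not_le] at hlt
    have h2 := ENNReal.mul_lt_mul_left (a := volume S) hpos.ne' hfin.ne hlt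
    rw [one_mul] at h2
    exact absurd hcov (not_le.2 h2)
  have h2 : (1:ℝ) ≤ ((Fintype.card ι : ℝ≥0∞) * ENNReal.ofReal (t ^ K)).toReal := by
    have h3 : ((Fintype.card ι : ℝ≥0∞) * ENNReal.ofReal (t ^ K)) ≠ ∞ :=
      ENNReal.mul_ne_top (by simp) (by simp)
    have := (ENNReal.toReal_le_toReal (by simp) h3).2 h1
    simpa using this
  rw [ENNReal.toReal_mul, ENNReal.toReal_ofReal (by positivity)] at h2
  simpa using h2

end Pool.Agent.Q265.KN
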