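import Mathlib
import Pool.Agent.Q265.KN.Dec
import Pool.Agent.Q265.KN.Vol

set_option autoImplicit false

open Module
open scoped InnerProductSpace
open Pool.Agent.Helper481

namespace Pool.Agent.Q265.KN

variable {𝕜 : Type*} [RCLike 𝕜]

lemma sum_two_pow (k : ℕ) : ∑ j ∈ Finset.range k, 2 ^ j * (k - j) + k = 2 * (2 ^ k - 1) := by
  induction k with
  | zero => simp
  | succ k ih =>
    have h1 : ∑ j ∈ Finset.range (k + 1), 2 ^ j * (k + 1 - j) =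
        ∑ j ∈ Finset.range k, 2 ^ j * (k - j) + ∑ j ∈ Finset.range (k + 1), 2 ^ j := by
      rw [Finset.sum_range_succ, Finset.sum_range_succ (fun j => 2 ^ j)]
      have h2 : ∑ j ∈ Finset.range k, 2 ^ j * (k + 1 - j) =
          ∑ j ∈ Finset.range k, 2 ^ j * (k - j) + ∑ j ∈ Finset.range k, 2 ^ j := by
        rw [← Finset.sum_add_distrib]
        refine Finset.sum_congr rfl fun j hj => ?_
        have := Finset.mem_range.1 hj
        rw [show k + 1 - j = (k - j) + 1 by omega]; ring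
      rw [h2, show k + 1 - k = 1 by omega]; ring
    have h3 : ∑ j ∈ Finset.range (k + 1), 2 ^ j = 2 ^ (k + 1) - 1 := by
      have := Nat.geomSum_eq (le_refl 2) (k + 1)
      rw [this]; simp
    rw [h1, h3]
    have h4 : 1 ≤ 2 ^ k := Nat.one_le_two_pow
    have h5 : 2 ^ (k + 1) = 2 * 2 ^ k := by rw [pow_succ]; ring
    omega

lemma sum_half (k : ℕ) : ∑ j ∈ Finset.range k, ((1:ℝ) / 2) ^ (k - j) ≤ 1 := by
  induction k with
  | zero => simp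
  | succ k ih =>
    rw [Finset.sum_range_succ]
    have h2 : ∑ j ∈ Finset.range k, ((1:ℝ) / 2) ^ (k + 1 - j) =
        (1 / 2) * ∑ j ∈ Finset.range k, ((1:ℝ) / 2) ^ (k - j) := by
      rw [Finset.mul_sum]
      refine Finset.sum_congr rfl fun j hj => ?_
      have := Finset.mem_range.1 hj
      rw [show k + 1 - j = (k - j) + 1 by omega]; ring
    rw [h2, show k + 1 - k = 1 by omega]
    linarith

lemma finrank_clm (a b : ℕ) :
    finrank ℝ (EuclideanSpace 𝕜 (Fin a) →L[𝕜] EuclideanSpace 𝕜 (Fin b)) ≤ 2 * (a * b) := by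
  have h1 := Module.finrank_mul_finrank ℝ 𝕜 (EuclideanSpace 𝕜 (Fin a) →L[𝕜] EuclideanSpace 𝕜 (Fin b))
  have h2 : finrank 𝕜 (EuclideanSpace 𝕜 (Fin a) →L[𝕜] EuclideanSpace 𝕜 (Fin b)) = a * b := by
    rw [← (LinearMap.toContinuousLinearMap (𝕜 := 𝕜) (E := EuclideanSpace 𝕜 (Fin a))
      (F' := EuclideanSpace 𝕜 (Fin b))).finrank_eq, Module.finrank_linearMap]
    simp
  rw [← h1, h2]
  exact Nat.mul_le_mul_right _ (RCLike.finrank_le_two 𝕜)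

lemma finite_clm (a b : ℕ) :
    Module.Finite ℝ (EuclideanSpace 𝕜 (Fin a) →L[𝕜] EuclideanSpace 𝕜 (Fin b)) := by
  have h1 : Module.Finite 𝕜 (EuclideanSpace 𝕜 (Fin a) →L[𝕜] EuclideanSpace 𝕜 (Fin b)) :=
    Module.Finite.equiv (LinearMap.toContinuousLinearMap (𝕜 := 𝕜) (E := EuclideanSpace 𝕜 (Fin a))
      (F' := EuclideanSpace 𝕜 (Fin b)))
  exact Module.Finite.trans 𝕜 _

/-- `T` has singular values decaying dyadically -/
def good {N : ℕ} (k : ℕ) (θ : ℝ) (T : EuclideanSpace 𝕜 (Fin N) →ₗ[𝕜] EuclideanSpace 𝕜 (Fin N)) :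
    Prop := ∀ j ≤ k, T.singularValues (2 ^ j - 1) ≤ θ ^ j

lemma exists_bigcode (𝕜 : Type*) [RCLike 𝕜] (N k B : ℕ) (hk : 2 ^ k ≤ N) (hB1 : 1 ≤ B) (θ : ℝ)
    (hθ : 0 < θ) (hB : ((1:ℝ) / 2) ^ B ≤ θ / 2) :
    ∃ (M : Fin k → ℕ)
      (f : (EuclideanSpace 𝕜 (Fin N) →ₗ[𝕜] EuclideanSpace 𝕜 (Fin N)) → (∀ j, Fin (M j))),
      Fintype.card (∀ j, Fin (M j)) ≤ 2 ^ (16 * B * (N * (2 ^ k - 1))) ∧
      ∀ T T', good k θ T → good k θ T' → f T = f T' → ∀ x, ‖T x - T' x‖ ≤ 10 * θ ^ k * ‖x‖ := by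
  classical
  have hcode : ∀ j : Fin k, ∃ (M : ℕ) (c : (EuclideanSpace 𝕜 (Fin (2 ^ (j:ℕ))) →L[𝕜] EuclideanSpace 𝕜 (Fin N)) ×
      (EuclideanSpace 𝕜 (Fin N) →L[𝕜] EuclideanSpace 𝕜 (Fin (2 ^ (j:ℕ)))) → Fin M),
      M ≤ 2 ^ ((B * (k - j) + 1) * (4 * (N * 2 ^ (j:ℕ)))) ∧
      ∀ x y, ‖x‖ ≤ 1 → ‖y‖ ≤ 1 → c x = c y → ‖x - y‖ ≤ 4 * (1 / 2) ^ (B * (k - j)) := by
    intro j
    have i1 := finite_clm (𝕜 := 𝕜) (2 ^ (j:ℕ)) N
    have i2 := finite_clm (𝕜 := 𝕜) N (2 ^ (j:ℕ))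
    have i3 : Module.Finite ℝ
      ((EuclideanSpace 𝕜 (Fin (2 ^ (j:ℕ))) →L[𝕜] EuclideanSpace 𝕜 (Fin N)) ×
       (EuclideanSpace 𝕜 (Fin N) →L[𝕜] EuclideanSpace 𝕜 (Fin (2 ^ (j:ℕ))))) :=
      Module.Finite.prod
    apply exists_code
    have h1 := finrank_clm (𝕜 := 𝕜) (2 ^ (j:ℕ)) N
    have h2 := finrank_clm (𝕜 := 𝕜) N (2 ^ (j:ℕ))
    rw [Module.finrank_prod]
    calc _ ≤ 2 * (2 ^ (j:ℕ) * N) + 2 * (N * 2 ^ (j:ℕ)) := add_le_add h1 h2
      _ = _ := by ring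
  choose M c hM hc using hcode
  have hdec : ∀ T : EuclideanSpace 𝕜 (Fin N) →ₗ[𝕜] EuclideanSpace 𝕜 (Fin N),
      ∃ (U : ∀ j : Fin k, EuclideanSpace 𝕜 (Fin (2 ^ (j:ℕ))) →L[𝕜] EuclideanSpace 𝕜 (Fin N))
      (W : ∀ j : Fin k, EuclideanSpace 𝕜 (Fin N) →L[𝕜] EuclideanSpace 𝕜 (Fin (2 ^ (j:ℕ)))),
      good k θ T → (∀ j, ‖U j‖ ≤ 1) ∧ (∀ j, ‖W j‖ ≤ 1) ∧
      ∀ x, ‖T x - ∑ j : Fin k, ((θ ^ (j:ℕ) : ℝ) : 𝕜) • U j (W j x)‖ ≤ θ ^ k * ‖x‖ := by
    intro T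
    by_cases hT : good k θ T
    · obtain ⟨U, W, h⟩ := exists_decomp (by simp) T k hk θ hθ hT
      exact ⟨U, W, fun _ => h⟩
    · exact ⟨0, 0, fun h => absurd h hT⟩
  choose U W hUW using hdec
  refine ⟨M, fun T j => c j (U T j, W T j), ?_, ?_⟩
  · rw [Fintype.card_pi]
    simp only [Fintype.card_fin]
    calc ∏ j, M j ≤ ∏ j : Fin k, 2 ^ (8 * B * N * (2 ^ (j:ℕ) * (k - j))) := by
          refine Finset.prod_le_prod' fun j _ => (hM j).trans ?_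
          refine Nat.pow_le_pow_right (by norm_num) ?_
          have h1 : 1 ≤ B * (k - j) := Nat.mul_pos hB1 (by have := j.2; omega)
          calc (B * (k - j) + 1) * (4 * (N * 2 ^ (j:ℕ)))
              ≤ (B * (k - j) + B * (k - j)) * (4 * (N * 2 ^ (j:ℕ))) := by gcongr
            _ = _ := by ring
      _ = 2 ^ (8 * B * N * ∑ j : Fin k, (2 ^ (j:ℕ) * (k - j))) := by
          rw [Finset.prod_pow_eq_pow_sum, ← Finset.mul_sum]
      _ ≤ _ := by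
          refine Nat.pow_le_pow_right (by norm_num) ?_
          rw [Fin.sum_univ_eq_sum_range (fun j => 2 ^ j * (k - j))]
          have := sum_two_pow k
          calc 8 * B * N * ∑ j ∈ Finset.range k, 2 ^ j * (k - j)
              ≤ 8 * B * N * (2 * (2 ^ k - 1)) := by gcongr; omega
            _ = _ := by ring
  · intro T T' hT hT' hTT x
    obtain ⟨h1, h2, h3⟩ := hUW T hT
    obtain ⟨h1', h2', h3'⟩ := hUW T' hT'
    have h4 : ∀ j : Fin k, ‖((θ ^ (j:ℕ) : ℝ) : 𝕜) • U T j (W T j x) - ((θ ^ (j:ℕ) : ℝ) : 𝕜) • U T' j (W T' j x)‖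
        ≤ 8 * θ ^ k * (1 / 2) ^ (k - j) * ‖x‖ := by
      intro j
      have h5 := hc j (U T j, W T j) (U T' j, W T' j) (by
        rw [Prod.norm_mk]; exact max_le (h1 j) (h2 j)) (by
        rw [Prod.norm_mk]; exact max_le (h1' j) (h2' j)) (congrFun hTT j)
      rw [Prod.mk_sub_mk, Prod.norm_mk] at h5
      have h6 : ‖U T j - U T' j‖ ≤ 4 * (1 / 2) ^ (B * (k - j)) := (le_max_left _ _).trans h5
      have h7 : ‖W T j - W T' j‖ ≤ 4 * (1 / 2) ^ (B * (k - j)) := (le_max_right _ _).trans h5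
      have h8 : ‖U T j (W T j x) - U T' j (W T' j x)‖ ≤ 8 * (1 / 2) ^ (B * (k - j)) * ‖x‖ := by
        calc ‖U T j (W T j x) - U T' j (W T' j x)‖
            = ‖(U T j - U T' j) (W T j x) + U T' j ((W T j - W T' j) x)‖ := by
              congr 1
              simp only [sub_apply, map_sub]
              abel
          _ ≤ ‖(U T j - U T' j) (W T j x)‖ + ‖U T' j ((W T j - W T' j) x)‖ := norm_add_le _ _
          _ ≤ ‖U T j - U T' j‖ * (‖W T j‖ * ‖x‖) + ‖U T' j‖ * (‖W T j - W T' j‖ * ‖x‖) := by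
              gcongr
              · exact ((U T j - U T' j).le_opNorm _).trans (by gcongr; exact (W T j).le_opNorm _)
              · exact ((U T' j).le_opNorm _).trans (by gcongr; exact (W T j - W T' j).le_opNorm _)
          _ ≤ (4 * (1 / 2) ^ (B * (k - j))) * (1 * ‖x‖) + 1 * ((4 * (1 / 2) ^ (B * (k - j))) * ‖x‖) := by
              gcongr
              · exact h2 j
              · exact h1' j
          _ = _ := by ring
      have h9 : ((1:ℝ) / 2) ^ (B * (k - j)) * θ ^ (j:ℕ) ≤ θ ^ k * (1 / 2) ^ (k - j) := by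
        calc ((1:ℝ) / 2) ^ (B * (k - j)) * θ ^ (j:ℕ) ≤ (θ / 2) ^ (k - j) * θ ^ (j:ℕ) := by
              rw [pow_mul]; gcongr
          _ = θ ^ k * (1 / 2) ^ (k - j) := by
              have : θ ^ k = θ ^ (k - j) * θ ^ (j:ℕ) := by
                rw [← pow_add]; congr 1; have := j.2; omega
              rw [this, div_eq_mul_one_div, mul_pow]; ring
      rw [← smul_sub, norm_smul, RCLike.norm_ofReal, abs_of_pos (by positivity)]
      calc θ ^ (j:ℕ) * ‖U T j (W T j x) - U T' j (W T' j x)‖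
          ≤ θ ^ (j:ℕ) * (8 * (1 / 2) ^ (B * (k - j)) * ‖x‖) := by gcongr
        _ = 8 * (((1:ℝ) / 2) ^ (B * (k - j)) * θ ^ (j:ℕ)) * ‖x‖ := by ring
        _ ≤ 8 * (θ ^ k * (1 / 2) ^ (k - j)) * ‖x‖ := by gcongr
        _ = _ := by ring
    have h5 : ‖∑ j : Fin k, ((θ ^ (j:ℕ) : ℝ) : 𝕜) • U T j (W T j x) -
        ∑ j : Fin k, ((θ ^ (j:ℕ) : ℝ) : 𝕜) • U T' j (W T' j x)‖ ≤ 8 * θ ^ k * ‖x‖ := by
      rw [← Finset.sum_sub_distrib]
      refine (norm_sum_le _ _).trans ((Finset.sum_le_sum fun j _ => h4 j).trans ?_)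
      rw [← Finset.sum_mul, ← Finset.mul_sum, Fin.sum_univ_eq_sum_range (fun j => ((1:ℝ) / 2) ^ (k - j))]
      have := sum_half k
      have h6 : 8 * θ ^ k * ∑ j ∈ Finset.range k, ((1:ℝ) / 2) ^ (k - j) ≤ 8 * θ ^ k * 1 := by gcongr
      rw [mul_one] at h6
      gcongr
    have h6 := h3 x
    have h7 := h3' x
    set S := ∑ j : Fin k, ((θ ^ (j:ℕ) : ℝ) : 𝕜) • U T j (W T j x)
    set S' := ∑ j : Fin k, ((θ ^ (j:ℕ) : ℝ) : 𝕜) • U T' j (W T' j x)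
    calc ‖T x - T' x‖ = ‖(T x - S) + (S - S') - (T' x - S')‖ := by congr 1; abel
      _ ≤ ‖(T x - S) + (S - S')‖ + ‖T' x - S'‖ := norm_sub_le _ _
      _ ≤ ‖T x - S‖ + ‖S - S'‖ + ‖T' x - S'‖ := by gcongr; exact norm_add_le _ _
      _ ≤ θ ^ k * ‖x‖ + 8 * θ ^ k * ‖x‖ + θ ^ k * ‖x‖ := by gcongr
      _ = _ := by ring

end Pool.Agent.Q265.KN
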