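import Mathlib
import Pool.Agent.Q265.KN.Code

set_option autoImplicit false

open Module
open scoped InnerProductSpace ENNReal
open Pool.Agent.Helper481

namespace Pool.Agent.Q265.KN

variable {𝕜 : Type*} [RCLike 𝕜] {N : ℕ}

lemma sum_range_two_mul (g : ℕ → ℝ) (N : ℕ) :
    ∑ i ∈ Finset.range (2 * N), g i = ∑ i ∈ Finset.range N, (g (2 * i) + g (2 * i + 1)) := by
  induction N with
  | zero => simp
  | succ N ih =>
    rw [show 2 * (N + 1) = 2 * N + 1 + 1 by ring, Finset.sum_range_succ, Finset.sum_range_succ, ih,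
      Finset.sum_range_succ]
    ring

lemma sum_sub_le (T S : EuclideanSpace 𝕜 (Fin N) →ₗ[𝕜] EuclideanSpace 𝕜 (Fin N)) (q : ℝ)
    (hq0 : 0 < q) (hq1 : q ≤ 1) (hT : ∑ i : Fin N, T.singularValues i ^ q ≤ 1)
    (hS : ∑ i : Fin N, S.singularValues i ^ q ≤ 1) :
    ∑ i : Fin N, (T - S).singularValues i ^ q ≤ 4 := by
  rw [Fin.sum_univ_eq_sum_range (fun i => T.singularValues i ^ q)] at hT
  rw [Fin.sum_univ_eq_sum_range (fun i => S.singularValues i ^ q)] at hS
  rw [Fin.sum_univ_eq_sum_range (fun i => (T - S).singularValues i ^ q)]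
  calc ∑ i ∈ Finset.range N, (T - S).singularValues i ^ q
      ≤ ∑ i ∈ Finset.range (2 * N), (T - S).singularValues i ^ q := by
        refine Finset.sum_le_sum_of_subset_of_nonneg ?_ fun i _ _ =>
          Real.rpow_nonneg ((T - S).singularValues_nonneg i) _
        intro i hi
        have := Finset.mem_range.1 hi
        exact Finset.mem_range.2 (by omega)
    _ = ∑ i ∈ Finset.range N, ((T - S).singularValues (2 * i) ^ q +
          (T - S).singularValues (2 * i + 1) ^ q) := sum_range_two_mul _ _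
    _ ≤ ∑ i ∈ Finset.range N, (2 * (T.singularValues i ^ q + S.singularValues i ^ q)) := by
        refine Finset.sum_le_sum fun i _ => ?_
        have h1 : (T - S).singularValues (2 * i) ≤ T.singularValues i + S.singularValues i := by
          have := sv_add T S i i
          rwa [← two_mul] at this
        have h2 : (T - S).singularValues (2 * i + 1) ≤ (T - S).singularValues (2 * i) :=
          (T - S).singularValues_antitone (Nat.le_succ _)
        have h3 : ∀ x : ℝ, 0 ≤ x → x ≤ T.singularValues i + S.singularValues i →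
            x ^ q ≤ T.singularValues i ^ q + S.singularValues i ^ q := by
          intro x hx0 hx
          refine (Real.rpow_le_rpow hx0 hx hq0.le).trans ?_
          exact Real.rpow_add_le_add_rpow (T.singularValues_nonneg _) (S.singularValues_nonneg _) hq0.le hq1
        have h4 := h3 _ ((T - S).singularValues_nonneg _) h1
        have h5 := h3 _ ((T - S).singularValues_nonneg _) (h2.trans h1)
        linarith
    _ = 2 * (∑ i ∈ Finset.range N, T.singularValues i ^ q + ∑ i ∈ Finset.range N, S.singularValues i ^ q) := by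
        rw [← Finset.mul_sum, Finset.sum_add_distrib]
    _ ≤ 4 := by linarith

/-- the base `2^{-1/q}` -/
noncomputable def th (q : ℝ) : ℝ := (2:ℝ) ^ (-(1 / q))

lemma th_pos (q : ℝ) : 0 < th q := Real.rpow_pos_of_pos (by norm_num) _

lemma th_pow (q : ℝ) (j : ℕ) : th q ^ j = (2:ℝ) ^ (-((j:ℝ) / q)) := by
  rw [th, ← Real.rpow_natCast, ← Real.rpow_mul (by norm_num)]
  congr 1; ring

lemma good_of_sum (T : EuclideanSpace 𝕜 (Fin N) →ₗ[𝕜] EuclideanSpace 𝕜 (Fin N)) (q : ℝ)
    (hq0 : 0 < q) (hT : ∑ i : Fin N, T.singularValues i ^ q ≤ 1) (k : ℕ) (hk : 2 ^ k ≤ N) :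
    good k (th q) T := by
  intro j hj
  rw [Fin.sum_univ_eq_sum_range (fun i => T.singularValues i ^ q)] at hT
  have hjN : 2 ^ j ≤ N := (Nat.pow_le_pow_right (by norm_num) hj).trans hk
  have h1 : (2:ℝ) ^ j * T.singularValues (2 ^ j - 1) ^ q ≤ 1 := by
    calc (2:ℝ) ^ j * T.singularValues (2 ^ j - 1) ^ q
        = ∑ i ∈ Finset.range (2 ^ j), T.singularValues (2 ^ j - 1) ^ q := by
          rw [Finset.sum_const, Finset.card_range, nsmul_eq_mul]; push_cast; rfl
      _ ≤ ∑ i ∈ Finset.range (2 ^ j), T.singularValues i ^ q := by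
          refine Finset.sum_le_sum fun i hi => ?_
          have := Finset.mem_range.1 hi
          exact Real.rpow_le_rpow (T.singularValues_nonneg _)
            (T.singularValues_antitone (by omega)) hq0.le
      _ ≤ ∑ i ∈ Finset.range N, T.singularValues i ^ q := by
          refine Finset.sum_le_sum_of_subset_of_nonneg ?_ fun i _ _ =>
            Real.rpow_nonneg (T.singularValues_nonneg i) _
          intro i hi
          have := Finset.mem_range.1 hi
          exact Finset.mem_range.2 (by omega)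
      _ ≤ 1 := hT
  have h2 : T.singularValues (2 ^ j - 1) ^ q ≤ (2:ℝ) ^ (-(j:ℝ)) := by
    rw [Real.rpow_neg (by norm_num), Real.rpow_natCast, ← one_div, le_div_iff₀ (by positivity)]
    linarith
  rw [th_pow]
  have h3 := Real.rpow_le_rpow (Real.rpow_nonneg (T.singularValues_nonneg _) _) h2
    (show 0 ≤ 1 / q by positivity)
  rw [← Real.rpow_mul (T.singularValues_nonneg _), mul_one_div_cancel hq0.ne', Real.rpow_one,
    ← Real.rpow_mul (by norm_num)] at h3
  refine h3.trans (le_of_eq ?_)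
  congr 1; ring

/-- the Schatten (quasi-)norm of an operator on `𝕜^N` -/
noncomputable def schL (p : ℝ≥0∞) (T : EuclideanSpace 𝕜 (Fin N) →ₗ[𝕜] EuclideanSpace 𝕜 (Fin N)) : ℝ :=
  if p = ∞ then ‖LinearMap.toContinuousLinearMap T‖
  else (∑ j : Fin N, T.singularValues j ^ p.toReal) ^ (1 / p.toReal)

lemma schL_smul (p : ℝ≥0∞) (hp : 0 < p)
    (T : EuclideanSpace 𝕜 (Fin N) →ₗ[𝕜] EuclideanSpace 𝕜 (Fin N)) (c : ℝ) (hc : 0 ≤ c) :
    schL p ((c : 𝕜) • T) ≤ c * schL p T := by
  unfold schL
  split_ifs with h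
  · rw [map_smul, norm_smul, RCLike.norm_ofReal, abs_of_nonneg hc]
  · have hp' : 0 < p.toReal := ENNReal.toReal_pos hp.ne' h
    have h1 : ∑ j : Fin N, ((c : 𝕜) • T).singularValues j ^ p.toReal ≤
        c ^ p.toReal * ∑ j : Fin N, T.singularValues j ^ p.toReal := by
      rw [Finset.mul_sum]
      refine Finset.sum_le_sum fun j _ => ?_
      rw [← Real.mul_rpow hc (T.singularValues_nonneg _)]
      exact Real.rpow_le_rpow (LinearMap.singularValues_nonneg _ _) (sv_smul c hc T j) hp'.le
    have h0 : 0 ≤ ∑ j : Fin N, T.singularValues j ^ p.toReal :=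
      Finset.sum_nonneg fun j _ => Real.rpow_nonneg (T.singularValues_nonneg _) _
    refine (Real.rpow_le_rpow (Finset.sum_nonneg fun j _ =>
      Real.rpow_nonneg (LinearMap.singularValues_nonneg _ _) _) h1 (by positivity)).trans ?_
    rw [Real.mul_rpow (by positivity) h0, ← Real.rpow_mul hc, mul_one_div_cancel hp'.ne',
      Real.rpow_one]

lemma schL_le_one_iff (p : ℝ≥0∞) (hp : 0 < p) (hp' : p ≠ ∞)
    (T : EuclideanSpace 𝕜 (Fin N) →ₗ[𝕜] EuclideanSpace 𝕜 (Fin N)) (h : schL p T ≤ 1) :
    ∑ j : Fin N, T.singularValues j ^ p.toReal ≤ 1 := by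
  unfold schL at h
  rw [if_neg hp'] at h
  have hp'' : 0 < p.toReal := ENNReal.toReal_pos hp.ne' hp'
  have h0 : 0 ≤ ∑ j : Fin N, T.singularValues j ^ p.toReal :=
    Finset.sum_nonneg fun j _ => Real.rpow_nonneg (T.singularValues_nonneg _) _
  have h2 := Real.rpow_le_rpow (Real.rpow_nonneg h0 _) h hp''.le
  rw [← Real.rpow_mul h0, one_div_mul_cancel hp''.ne', Real.rpow_one, Real.one_rpow] at h2
  exact h2

/-- the cells have small diameter for the Schatten `p` quasi-norm -/
lemma schL_le_of_cell (p q : ℝ≥0∞) (hq : 0 < q) (hq1 : q ≤ 1) (hqp : q ≤ p)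
    (D : EuclideanSpace 𝕜 (Fin N) →ₗ[𝕜] EuclideanSpace 𝕜 (Fin N)) (k : ℕ)
    (h1 : ∀ x, ‖D x‖ ≤ 10 * th q.toReal ^ k * ‖x‖)
    (h2 : ∑ i : Fin N, D.singularValues i ^ q.toReal ≤ 4) :
    schL p D ≤ 10 * (4:ℝ) ^ (1 / q.toReal) *
      (2:ℝ) ^ (-((k:ℝ) * (1 / q.toReal - 1 / p.toReal))) := by
  have hqt : q ≠ ∞ := ne_top_of_le_ne_top ENNReal.one_ne_top hq1
  have hq' : 0 < q.toReal := ENNReal.toReal_pos hq.ne' hqt
  have hth := th_pos q.toReal
  have h4 : (1:ℝ) ≤ 4 ^ (1 / q.toReal) := Real.one_le_rpow (by norm_num) (by positivity)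
  unfold schL
  split_ifs with hp
  · rw [hp]
    simp only [ENNReal.toReal_top, div_zero, sub_zero]
    refine (ContinuousLinearMap.opNorm_le_bound _ (by positivity) h1).trans ?_
    rw [th_pow]
    have e : -((k:ℝ) / q.toReal) = -((k:ℝ) * (1 / q.toReal)) := by ring
    rw [e]
    have h5 : (0:ℝ) < (2:ℝ) ^ (-((k:ℝ) * (1 / q.toReal))) := Real.rpow_pos_of_pos (by norm_num) _
    nlinarith
  · have hp0 : 0 < p := lt_of_lt_of_le hq hqp
    have hp' : 0 < p.toReal := ENNReal.toReal_pos hp0.ne' hp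
    have hqp' : q.toReal ≤ p.toReal := (ENNReal.toReal_le_toReal hqt hp).2 hqp
    set a := 10 * th q.toReal ^ k with ha
    have ha0 : 0 < a := by positivity
    have hs : ∀ i : Fin N, D.singularValues i ≤ a := fun i => sv_zero_le D a ha0.le h1 i
    have h5 : ∑ i : Fin N, D.singularValues i ^ p.toReal ≤ 4 * a ^ (p.toReal - q.toReal) := by
      calc ∑ i : Fin N, D.singularValues i ^ p.toReal
          ≤ ∑ i : Fin N, D.singularValues i ^ q.toReal * a ^ (p.toReal - q.toReal) := by
            refine Finset.sum_le_sum fun i _ => ?_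
            have h0 := D.singularValues_nonneg i
            rcases eq_or_lt_of_le h0 with h6 | h6
            · rw [← h6, Real.zero_rpow hp'.ne', Real.zero_rpow hq'.ne', zero_mul]
            · have : p.toReal = q.toReal + (p.toReal - q.toReal) := by ring
              conv_lhs => rw [this, Real.rpow_add h6]
              have := Real.rpow_le_rpow h0 (hs i) (show 0 ≤ p.toReal - q.toReal by linarith)
              have := Real.rpow_nonneg h0 q.toReal
              gcongr
        _ = (∑ i : Fin N, D.singularValues i ^ q.toReal) * a ^ (p.toReal - q.toReal) := by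
            rw [Finset.sum_mul]
        _ ≤ _ := by gcongr
    have h6 : (∑ i : Fin N, D.singularValues i ^ p.toReal) ^ (1 / p.toReal) ≤
        (4 * a ^ (p.toReal - q.toReal)) ^ (1 / p.toReal) :=
      Real.rpow_le_rpow (Finset.sum_nonneg fun j _ => Real.rpow_nonneg (D.singularValues_nonneg _) _)
        h5 (by positivity)
    refine h6.trans ?_
    rw [Real.mul_rpow (by norm_num) (by positivity), ← Real.rpow_mul ha0.le]
    have h7 : (4:ℝ) ^ (1 / p.toReal) ≤ 4 ^ (1 / q.toReal) :=
      Real.rpow_le_rpow_of_exponent_le (by norm_num) (one_div_le_one_div_of_le hq' hqp')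
    set r := (p.toReal - q.toReal) * (1 / p.toReal) with hr
    have hr0 : 0 ≤ r := mul_nonneg (by linarith) (by positivity)
    have hr1 : r ≤ 1 := by
      rw [hr, mul_one_div, div_le_one hp']; linarith
    have h8 : a ^ r ≤ 10 * (2:ℝ) ^ (-((k:ℝ) * (1 / q.toReal - 1 / p.toReal))) := by
      rw [ha, Real.mul_rpow (by norm_num) (by positivity)]
      have h9 : (10:ℝ) ^ r ≤ 10 := by
        calc (10:ℝ) ^ r ≤ 10 ^ (1:ℝ) := Real.rpow_le_rpow_of_exponent_le (by norm_num) hr1
          _ = 10 := Real.rpow_one _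
      have h10 : (th q.toReal ^ k) ^ r = (2:ℝ) ^ (-((k:ℝ) * (1 / q.toReal - 1 / p.toReal))) := by
        rw [th_pow, ← Real.rpow_mul (by norm_num)]
        congr 1
        rw [hr]
        field_simp
      rw [h10]
      gcongr
    calc (4:ℝ) ^ (1 / p.toReal) * a ^ r ≤ 4 ^ (1 / q.toReal) *
          (10 * (2:ℝ) ^ (-((k:ℝ) * (1 / q.toReal - 1 / p.toReal)))) := by gcongr
      _ = _ := by ring

end Pool.Agent.Q265.KN
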