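import Mathlib
import Pool.Agent.Q265.KN.Main

set_option autoImplicit false

open Module
open scoped InnerProductSpace ENNReal
open Pool.Agent.Helper481

namespace Pool.Agent.Q265.KN

variable {𝕜 : Type*} [RCLike 𝕜] {N : ℕ}

/-- the constant -/
noncomputable def cst (q : ℝ) : ℝ :=
  (1 / 2) ^ (16 * (⌈1 / q⌉₊ + 1)) / (10 * (4:ℝ) ^ (1 / q) * (2:ℝ) ^ (1 / q))

lemma cst_pos (q : ℝ) : 0 < cst q := by
  unfold cst
  have h1 : (0:ℝ) < (4:ℝ) ^ (1 / q) := Real.rpow_pos_of_pos (by norm_num) _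
  have h2 : (0:ℝ) < (2:ℝ) ^ (1 / q) := Real.rpow_pos_of_pos (by norm_num) _
  positivity

lemma half_pow_le (q : ℝ) : ((1:ℝ) / 2) ^ (⌈1 / q⌉₊ + 1) ≤ th q / 2 := by
  have h1 : ((1:ℝ) / 2) ^ ⌈1 / q⌉₊ ≤ th q := by
    have h2 : ((1:ℝ) / 2) ^ ⌈1 / q⌉₊ = (2:ℝ) ^ (-((⌈1 / q⌉₊ : ℕ) : ℝ)) := by
      rw [Real.rpow_neg (by norm_num), Real.rpow_natCast, one_div, inv_pow]
    rw [h2, th]
    exact Real.rpow_le_rpow_of_exponent_le (by norm_num) (neg_le_neg (Nat.le_ceil _))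
  rw [pow_succ]
  linarith

/-- the real dimension of the quotient -/
lemma finrank_quot (n : ℕ) (hn1 : 1 ≤ n) (hn : n ≤ N ^ 2)
    (L : Submodule 𝕜 (EuclideanSpace 𝕜 (Fin N) →L[𝕜] EuclideanSpace 𝕜 (Fin N)))
    (hL : finrank 𝕜 L < n) :
    N ^ 2 - n + 1 ≤ finrank ℝ
      ((EuclideanSpace 𝕜 (Fin N) →L[𝕜] EuclideanSpace 𝕜 (Fin N)) ⧸ (L.restrictScalars ℝ)) := by
  have i1 := finite_clm (𝕜 := 𝕜) N N
  have h1 := Submodule.finrank_quotient_add_finrank (L.restrictScalars ℝ)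
  have h2 := Module.finrank_mul_finrank ℝ 𝕜 (EuclideanSpace 𝕜 (Fin N) →L[𝕜] EuclideanSpace 𝕜 (Fin N))
  have h3 : finrank 𝕜 (EuclideanSpace 𝕜 (Fin N) →L[𝕜] EuclideanSpace 𝕜 (Fin N)) = N * N := by
    rw [← (LinearMap.toContinuousLinearMap (𝕜 := 𝕜) (E := EuclideanSpace 𝕜 (Fin N))
      (F' := EuclideanSpace 𝕜 (Fin N))).finrank_eq, Module.finrank_linearMap]
    simp
  have i4 : Module.Free 𝕜 L := Module.Free.of_divisionRing 𝕜 L
  have h4 : finrank ℝ 𝕜 * finrank 𝕜 L = finrank ℝ L := Module.finrank_mul_finrank ℝ 𝕜 L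
  have h5 : finrank ℝ (L.restrictScalars ℝ) = finrank ℝ L := rfl
  have h6 : 1 ≤ finrank ℝ 𝕜 := Module.finrank_pos
  rw [h5, ← h4, ← h2, h3] at h1
  set K := finrank ℝ
      ((EuclideanSpace 𝕜 (Fin N) →L[𝕜] EuclideanSpace 𝕜 (Fin N)) ⧸ (L.restrictScalars ℝ))
  set l := finrank 𝕜 L
  set d := finrank ℝ 𝕜
  have h7 : l ≤ N * N := by rw [← sq]; omega
  have h8 : K = d * (N * N - l) := by
    rw [Nat.mul_sub]; omega
  rw [h8]
  calc N ^ 2 - n + 1 ≤ 1 * (N * N - l) := by rw [sq] at hn ⊢; omega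
    _ ≤ d * (N * N - l) := Nat.mul_le_mul_right _ h6

lemma main_bound (p q : ℝ≥0∞) (hq : 0 < q) (hq1 : q ≤ 1) (hqp : q ≤ p) (n : ℕ) (hN : 1 ≤ N)
    (hn1 : 1 ≤ n) (hn : n ≤ N ^ 2)
    (L : Submodule 𝕜 (EuclideanSpace 𝕜 (Fin N) →ₗ[𝕜] EuclideanSpace 𝕜 (Fin N)))
    (hL : finrank 𝕜 L < n) (δ : ℝ) (hδ : 0 < δ)
    (h : ∀ T, schL p T ≤ 1 → ∃ S ∈ L, schL q (T - S) ≤ δ) :
    cst q.toReal * (max 1 (((N:ℝ) ^ 2 - n + 1) / N)) ^ (1 / q.toReal - 1 / p.toReal) ≤ δ := by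
  classical
  have hqt : q ≠ ∞ := ne_top_of_le_ne_top ENNReal.one_ne_top hq1
  have hq' : 0 < q.toReal := ENNReal.toReal_pos hq.ne' hqt
  have hq1' : q.toReal ≤ 1 := by
    have := (ENNReal.toReal_le_toReal hqt ENNReal.one_ne_top).2 hq1
    simpa using this
  have hp0 : 0 < p := lt_of_lt_of_le hq hqp
  set κ := 1 / q.toReal - 1 / p.toReal with hκ
  have hκ0 : 0 ≤ κ := by
    rw [hκ]
    by_cases hp : p = ∞
    · rw [hp]; simp
    · have hqp' : q.toReal ≤ p.toReal := (ENNReal.toReal_le_toReal hqt hp).2 hqp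
      have := one_div_le_one_div_of_le hq' hqp'
      linarith
  have hκ1 : κ ≤ 1 / q.toReal := by
    rw [hκ]
    have : 0 ≤ 1 / p.toReal := by positivity
    linarith
  set m := N ^ 2 - n + 1 with hm
  have hm1 : 1 ≤ m := by omega
  have hmN : m ≤ N ^ 2 := by omega
  set k := Nat.log 2 (m / N) with hk
  have hmN' : m / N ≤ N := by
    refine Nat.div_le_of_le_mul ?_
    rw [← sq]; exact hmN
  have hk1 : 2 ^ k ≤ N ∧ N * (2 ^ k - 1) ≤ m := by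
    by_cases h0 : m / N = 0
    · have : k = 0 := by rw [hk, h0]; simp
      rw [this]
      exact ⟨by simpa using hN, by simp⟩
    · have h1 : 2 ^ k ≤ m / N := Nat.pow_log_le_self 2 h0
      refine ⟨h1.trans hmN', ?_⟩
      calc N * (2 ^ k - 1) ≤ N * (m / N) := Nat.mul_le_mul_left _ ((Nat.sub_le _ _).trans h1)
        _ ≤ m := Nat.mul_div_le m N
  obtain ⟨hkN, hkm⟩ := hk1
  have hmax : max 1 (((N:ℝ) ^ 2 - n + 1) / N) ≤ (2:ℝ) ^ (k + 1) := by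
    have h1 : m / N < 2 ^ (k + 1) := Nat.lt_pow_succ_log_self (by norm_num) _
    have h2 : (((N:ℝ) ^ 2 - n + 1) / N) = (m:ℝ) / N := by
      rw [hm]; push_cast [Nat.cast_sub hn]; ring
    rw [h2]
    refine max_le (one_le_pow₀ (by norm_num)) ?_
    have hNpos : (0:ℝ) < N := by exact_mod_cast hN
    rw [div_le_iff₀ hNpos]
    have h3 : m < N * (m / N + 1) := by
      have := Nat.lt_mul_div_succ m (show 0 < N by omega)
      exact this
    have h4 : m ≤ 2 ^ (k + 1) * N := by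
      calc m ≤ N * (m / N + 1) := h3.le
        _ ≤ N * 2 ^ (k + 1) := Nat.mul_le_mul_left _ h1
        _ = _ := by ring
    exact_mod_cast h4
  set B := ⌈1 / q.toReal⌉₊ + 1 with hB
  obtain ⟨M, f, hM, hf⟩ := exists_bigcode 𝕜 N k B hkN (by omega) (th q.toReal) (th_pos _) (half_pow_le _)
  set ε := 10 * (4:ℝ) ^ (1 / q.toReal) * (2:ℝ) ^ (-((k:ℝ) * κ)) with hε
  have hε0 : 0 < ε := by
    have h1 : (0:ℝ) < (4:ℝ) ^ (1 / q.toReal) := Real.rpow_pos_of_pos (by norm_num) _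
    have h2 : (0:ℝ) < (2:ℝ) ^ (-((k:ℝ) * κ)) := Real.rpow_pos_of_pos (by norm_num) _
    positivity
  -- the space of operators
  have i1 := finite_clm (𝕜 := 𝕜) N N
  let e := (LinearMap.toContinuousLinearMap (𝕜 := 𝕜) (E := EuclideanSpace 𝕜 (Fin N))
      (F' := EuclideanSpace 𝕜 (Fin N)))
  set LX : Submodule 𝕜 (EuclideanSpace 𝕜 (Fin N) →L[𝕜] EuclideanSpace 𝕜 (Fin N)) :=
    L.map e.toLinearMap with hLX
  have hLXf : finrank 𝕜 LX = finrank 𝕜 L := LinearEquiv.finrank_map_eq e L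
  have hK := finrank_quot (𝕜 := 𝕜) (N := N) n hn1 hn LX (by rw [hLXf]; exact hL)
  set K := finrank ℝ
      ((EuclideanSpace 𝕜 (Fin N) →L[𝕜] EuclideanSpace 𝕜 (Fin N)) ⧸ (LX.restrictScalars ℝ)) with hKdef
  let Bq : Set (EuclideanSpace 𝕜 (Fin N) →L[𝕜] EuclideanSpace 𝕜 (Fin N)) :=
    {S | ∑ i : Fin N, (S : EuclideanSpace 𝕜 (Fin N) →ₗ[𝕜] EuclideanSpace 𝕜 (Fin N)).singularValues i
      ^ q.toReal ≤ 1}
  have hBgood : ∀ S ∈ Bq, good k (th q.toReal)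
      (S : EuclideanSpace 𝕜 (Fin N) →ₗ[𝕜] EuclideanSpace 𝕜 (Fin N)) := fun S hS =>
    good_of_sum _ q.toReal hq' hS k hkN
  have hBb : Bornology.IsBounded Bq := by
    refine (Metric.isBounded_closedBall (x := (0 : EuclideanSpace 𝕜 (Fin N) →L[𝕜] EuclideanSpace 𝕜 (Fin N)))
      (r := 1)).subset fun S hS => ?_
    rw [mem_closedBall_zero_iff]
    refine ContinuousLinearMap.opNorm_le_bound _ zero_le_one fun x => ?_
    have h1 := hBgood S hS 0 (Nat.zero_le _)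
    simp only [pow_zero, Nat.sub_self] at h1
    have h2 := norm_le_sv_zero (S : EuclideanSpace 𝕜 (Fin N) →ₗ[𝕜] EuclideanSpace 𝕜 (Fin N)) x
    refine h2.trans ?_
    gcongr
  have hB0 : Bq ∈ nhds (0 : EuclideanSpace 𝕜 (Fin N) →L[𝕜] EuclideanSpace 𝕜 (Fin N)) := by
    have hNpos : (0:ℝ) < N := by exact_mod_cast hN
    have hρ : (0:ℝ) < (1 / (N:ℝ)) ^ (1 / q.toReal) := Real.rpow_pos_of_pos (by positivity) _
    refine Filter.mem_of_superset (Metric.closedBall_mem_nhds _ hρ) fun S hS => ?_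
    rw [mem_closedBall_zero_iff] at hS
    change ∑ i : Fin N, _ ≤ (1:ℝ)
    have h1 : ∀ i : Fin N, (S : EuclideanSpace 𝕜 (Fin N) →ₗ[𝕜] EuclideanSpace 𝕜 (Fin N)).singularValues i
        ^ q.toReal ≤ 1 / N := by
      intro i
      have h2 := sv_zero_le (S : EuclideanSpace 𝕜 (Fin N) →ₗ[𝕜] EuclideanSpace 𝕜 (Fin N)) _ hρ.le
        (fun x => (S.le_opNorm x).trans (by gcongr)) i
      have h3 := Real.rpow_le_rpow (LinearMap.singularValues_nonneg _ _) h2 hq'.le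
      rwa [← Real.rpow_mul (by positivity), one_div_mul_cancel hq'.ne', Real.rpow_one] at h3
    calc _ ≤ ∑ i : Fin N, (1:ℝ) / N := Finset.sum_le_sum fun i _ => h1 i
      _ = 1 := by
        rw [Finset.sum_const, Finset.card_univ, Fintype.card_fin, nsmul_eq_mul]
        field_simp
      _ ≤ 1 := le_rfl
  have hvol := volume_bound (LX.restrictScalars ℝ) Bq hBb hB0
    (fun S => f (S : EuclideanSpace 𝕜 (Fin N) →ₗ[𝕜] EuclideanSpace 𝕜 (Fin N))) (ε * δ) (by positivity)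
    (by
      intro x hx y hy hxy
      set x' := (x : EuclideanSpace 𝕜 (Fin N) →ₗ[𝕜] EuclideanSpace 𝕜 (Fin N)) with hx'
      set y' := (y : EuclideanSpace 𝕜 (Fin N) →ₗ[𝕜] EuclideanSpace 𝕜 (Fin N)) with hy'
      have h1 := hf x' y' (hBgood x hx) (hBgood y hy) hxy
      have h2 := sum_sub_le x' y' q.toReal hq' hq1' hx hy
      have h3 := schL_le_of_cell p q hq hq1 hqp (x' - y') k (fun z => by
        rw [LinearMap.sub_apply]; exact h1 z) h2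
      have h4 : schL p (((ε⁻¹ : ℝ) : 𝕜) • (x' - y')) ≤ 1 := by
        refine (schL_smul p hp0 _ _ (by positivity)).trans ?_
        rw [inv_mul_le_iff₀ hε0, mul_one]
        exact h3
      obtain ⟨S, hS, hS2⟩ := h _ h4
      set z' := ((δ⁻¹ : ℝ) : 𝕜) • ((((ε⁻¹ : ℝ) : 𝕜) • (x' - y')) - S) with hz'
      have h5 : schL q z' ≤ 1 := by
        refine (schL_smul q hq _ _ (by positivity)).trans ?_
        rw [inv_mul_le_iff₀ hδ, mul_one]
        exact hS2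
      have h6 := schL_le_one_iff q hq hqt _ h5
      have hεk : ((ε : ℝ) : 𝕜) ≠ 0 := by exact_mod_cast hε0.ne'
      have hδk : ((δ : ℝ) : 𝕜) ≠ 0 := by exact_mod_cast hδ.ne'
      refine ⟨((ε : ℝ) : 𝕜) • e S, ?_, e z', ?_, ?_⟩
      · change ((ε : ℝ) : 𝕜) • e S ∈ LX
        exact LX.smul_mem _ ⟨S, hS, rfl⟩
      · exact h6
      · have h7 : x' - y' = ((ε : ℝ) : 𝕜) • S + ((ε * δ : ℝ) : 𝕜) • z' := by
          rw [hz', smul_smul]
          have h8 : (((ε * δ : ℝ) : 𝕜) * ((δ⁻¹ : ℝ) : 𝕜)) = ((ε : ℝ) : 𝕜) := by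
            push_cast
            field_simp
          rw [h8, smul_sub, smul_smul]
          have h9 : (((ε : ℝ) : 𝕜) * ((ε⁻¹ : ℝ) : 𝕜)) = 1 := by
            push_cast
            field_simp
          rw [h9, one_smul]
          abel
        have h8 : x - y = e (x' - y') := by
          ext v : 1
          rfl
        rw [h8, h7, map_add, map_smul, map_smul]
        congr 1
        ext v : 1
        simp only [smul_apply]
        rw [RCLike.real_smul_eq_coe_smul (K := 𝕜)])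
  rw [← hKdef] at hvol
  -- the conclusion `ε δ ≥ 2^{-16 B}`
  have hlow : ((1:ℝ) / 2) ^ (16 * B) ≤ ε * δ := by
    by_contra hcon
    rw [not_le] at hcon
    have h1 : ε * δ ≤ 1 := hcon.le.trans (pow_le_one₀ (by norm_num) (by norm_num))
    have h2 : (ε * δ) ^ K ≤ (ε * δ) ^ m := pow_le_pow_of_le_one (by positivity) h1 hK
    have h3 : (ε * δ) ^ m < (((1:ℝ) / 2) ^ (16 * B)) ^ m :=
      pow_lt_pow_left₀ hcon (by positivity) (by omega)
    have h4 : (Fintype.card (∀ j, Fin (M j)) : ℝ) ≤ ((2:ℝ) ^ (16 * B)) ^ m := by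
      have h5 : (Fintype.card (∀ j, Fin (M j))) ≤ (2 ^ (16 * B)) ^ m := by
        refine hM.trans ?_
        rw [← pow_mul]
        exact Nat.pow_le_pow_right (by norm_num) (Nat.mul_le_mul_left _ hkm)
      exact_mod_cast h5
    have h6 : (Fintype.card (∀ j, Fin (M j)) : ℝ) * (ε * δ) ^ K < 1 := by
      calc (Fintype.card (∀ j, Fin (M j)) : ℝ) * (ε * δ) ^ K
          ≤ ((2:ℝ) ^ (16 * B)) ^ m * (ε * δ) ^ m := by gcongr
        _ < ((2:ℝ) ^ (16 * B)) ^ m * (((1:ℝ) / 2) ^ (16 * B)) ^ m := by gcongr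
        _ = 1 := by
          rw [← mul_pow, ← mul_pow]; norm_num
    linarith
  -- conclusion
  have h20 : (0:ℝ) < (2:ℝ) ^ ((k:ℝ) * κ) := Real.rpow_pos_of_pos (by norm_num) _
  have h40 : (0:ℝ) < (4:ℝ) ^ (1 / q.toReal) := Real.rpow_pos_of_pos (by norm_num) _
  have h2q : (0:ℝ) < (2:ℝ) ^ (1 / q.toReal) := Real.rpow_pos_of_pos (by norm_num) _
  have hpow : (max 1 (((N:ℝ) ^ 2 - n + 1) / N)) ^ κ ≤ (2:ℝ) ^ ((k:ℝ) * κ) * (2:ℝ) ^ (1 / q.toReal) := by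
    calc (max 1 (((N:ℝ) ^ 2 - n + 1) / N)) ^ κ ≤ ((2:ℝ) ^ (k + 1)) ^ κ :=
          Real.rpow_le_rpow (by positivity) hmax hκ0
      _ = (2:ℝ) ^ ((k:ℝ) * κ) * (2:ℝ) ^ κ := by
          rw [← Real.rpow_natCast, ← Real.rpow_mul (by norm_num), ← Real.rpow_add (by norm_num)]
          congr 1; push_cast; ring
      _ ≤ _ := by
          gcongr
          norm_num
  have hεe : ε * (2:ℝ) ^ ((k:ℝ) * κ) = 10 * (4:ℝ) ^ (1 / q.toReal) := by
    rw [hε, Real.rpow_neg (by norm_num)]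
    field_simp
  have hfin : cst q.toReal * ((2:ℝ) ^ ((k:ℝ) * κ) * (2:ℝ) ^ (1 / q.toReal)) ≤ δ := by
    unfold cst
    rw [← hB]
    have h1 : (1 / 2 : ℝ) ^ (16 * B) / (10 * (4:ℝ) ^ (1 / q.toReal) * (2:ℝ) ^ (1 / q.toReal)) *
        ((2:ℝ) ^ ((k:ℝ) * κ) * (2:ℝ) ^ (1 / q.toReal)) = (1 / 2 : ℝ) ^ (16 * B) / ε := by
      rw [← hεe]
      field_simp
    rw [h1, div_le_iff₀ hε0]
    linarith
  calc cst q.toReal * (max 1 (((N:ℝ) ^ 2 - n + 1) / N)) ^ κ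
      ≤ cst q.toReal * ((2:ℝ) ^ ((k:ℝ) * κ) * (2:ℝ) ^ (1 / q.toReal)) :=
        mul_le_mul_of_nonneg_left hpow (cst_pos _).le
    _ ≤ δ := hfin

end Pool.Agent.Q265.KN
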